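import Mathlib

/-!
# MP_496e47_co: uniqueness of the cyclic descent map does not force `D(S) = {k-1,k}`

The `2 × 3` rectangle has exactly one cyclic descent map, but the descent numbers of its
standard Young tableaux are `1, 2, 3`.
-/

set_option autoImplicit false

namespace Pool.Agent.Results.MP_496e47_co.RectangleTwoThree

/-- The set of cells of the skew shape `lam / mu` (English notation: `(i, j)` is the cell in row
`i`, column `j`, rows are numbered downwards). -/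
def cells (lam mu : YoungDiagram) : Finset (ℕ × ℕ) := lam.cells \ mu.cells

/-- The number of cells. -/
def size (lam mu : YoungDiagram) : ℕ := (cells lam mu).card

/-- Standard Young tableaux of skew shape `lam / mu`: bijective fillings of the cells by
`1, …, n`, increasing along rows and down columns (with the value `0` outside the shape). -/
@[ext] structure SYT (lam mu : YoungDiagram) where
  entry : ℕ × ℕ → ℕ
  zeros : ∀ c, c ∉ cells lam mu → entry c = 0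
  bij : Set.BijOn entry (cells lam mu : Set (ℕ × ℕ)) (Set.Icc 1 (size lam mu))
  row : ∀ i j j' : ℕ, (i, j) ∈ cells lam mu → (i, j') ∈ cells lam mu → j < j' →
    entry (i, j) < entry (i, j')
  col : ∀ i i' j : ℕ, (i, j) ∈ cells lam mu → (i', j) ∈ cells lam mu → i < i' →
    entry (i, j) < entry (i', j)

open Classical in
/-- The descent set: those `i ∈ [n-1]` for which `i+1` lies in a row strictly below the row of
`i`. -/
noncomputable def Des {lam mu : YoungDiagram} (T : SYT lam mu) : Finset ℕ :=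
  (Finset.Icc 1 (size lam mu - 1)).filter
    (fun i => ∃ c ∈ cells lam mu, ∃ d ∈ cells lam mu,
      T.entry c = i ∧ T.entry d = i + 1 ∧ c.1 < d.1)

/-- The set `D(S)` of descent numbers. -/
def D (lam mu : YoungDiagram) : Set ℕ := {d | ∃ T : SYT lam mu, (Des T).card = d}

/-- The rotation `X ↦ 1 + X` modulo `n`, with values in `[n]`. -/
def rot (n : ℕ) (X : Finset ℕ) : Finset ℕ := X.image (fun x => x % n + 1)

/-- `f` is a cyclic descent map for the shape `lam / mu`. -/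
def IsCyclicDescentMap (lam mu : YoungDiagram) (f : SYT lam mu → Finset ℕ) : Prop :=
  (∀ T, f T ⊆ Finset.Icc 1 (size lam mu)) ∧
  ∃ φ : Equiv.Perm (SYT lam mu), ∀ T : SYT lam mu,
    f T ∩ Finset.Icc 1 (size lam mu - 1) = Des T ∧
    f (φ T) = rot (size lam mu) (f T) ∧
    f T ≠ ∅ ∧ f T ≠ Finset.Icc 1 (size lam mu)

/-- The `2 × 3` rectangle, i.e. the partition `(3, 3)`. -/
def R : YoungDiagram where
  cells := Finset.range 2 ×ˢ Finset.range 3
  isLowerSet := by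
    rintro ⟨a, b⟩ ⟨c, d⟩ h hab
    simp only [Finset.coe_product, Finset.coe_range, Set.mem_prod, Set.mem_Iio] at hab ⊢
    have h1 : c ≤ a := h.1
    have h2 : d ≤ b := h.2
    exact ⟨lt_of_le_of_lt h1 hab.1, lt_of_le_of_lt h2 hab.2⟩

lemma cells_R : cells R ⊥ = Finset.range 2 ×ˢ Finset.range 3 := by
  unfold cells R
  simp

lemma size_R : size R ⊥ = 6 := by
  unfold size
  rw [cells_R]
  rfl

lemma mem_R (i j : ℕ) : (i, j) ∈ cells R ⊥ ↔ i < 2 ∧ j < 3 := by
  rw [cells_R]; simp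

/-- the five tableaux -/
lemma five (T : SYT R ⊥) :
    T.entry (0, 0) = 1 ∧ T.entry (1, 2) = 6 ∧
    ((T.entry (0, 1) = 2 ∧ T.entry (0, 2) = 3 ∧ T.entry (1, 0) = 4 ∧ T.entry (1, 1) = 5) ∨
     (T.entry (0, 1) = 2 ∧ T.entry (0, 2) = 4 ∧ T.entry (1, 0) = 3 ∧ T.entry (1, 1) = 5) ∨
     (T.entry (0, 1) = 2 ∧ T.entry (0, 2) = 5 ∧ T.entry (1, 0) = 3 ∧ T.entry (1, 1) = 4) ∨
     (T.entry (0, 1) = 3 ∧ T.entry (0, 2) = 4 ∧ T.entry (1, 0) = 2 ∧ T.entry (1, 1) = 5) ∨
     (T.entry (0, 1) = 3 ∧ T.entry (0, 2) = 5 ∧ T.entry (1, 0) = 2 ∧ T.entry (1, 1) = 4)) := by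
  have hm : ∀ i j, i < 2 → j < 3 → (i, j) ∈ cells R ⊥ := fun i j h1 h2 => (mem_R i j).2 ⟨h1, h2⟩
  have hr : ∀ i j, i < 2 → j < 3 → 1 ≤ T.entry (i, j) ∧ T.entry (i, j) ≤ 6 := by
    intro i j h1 h2
    have := T.bij.mapsTo (Finset.mem_coe.2 (hm i j h1 h2))
    rw [size_R] at this
    exact this
  have hinj : ∀ i j k l, i < 2 → j < 3 → k < 2 → l < 3 → T.entry (i, j) = T.entry (k, l) →
      i = k ∧ j = l := by
    intro i j k l h1 h2 h3 h4 h
    have := T.bij.injOn (Finset.mem_coe.2 (hm i j h1 h2)) (Finset.mem_coe.2 (hm k l h3 h4)) h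
    exact Prod.mk.inj this
  have a1 := T.row 0 0 1 (hm _ _ (by norm_num) (by norm_num)) (hm _ _ (by norm_num) (by norm_num)) (by norm_num)
  have a2 := T.row 0 1 2 (hm _ _ (by norm_num) (by norm_num)) (hm _ _ (by norm_num) (by norm_num)) (by norm_num)
  have a3 := T.row 1 0 1 (hm _ _ (by norm_num) (by norm_num)) (hm _ _ (by norm_num) (by norm_num)) (by norm_num)
  have a4 := T.row 1 1 2 (hm _ _ (by norm_num) (by norm_num)) (hm _ _ (by norm_num) (by norm_num)) (by norm_num)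
  have b1 := T.col 0 1 0 (hm _ _ (by norm_num) (by norm_num)) (hm _ _ (by norm_num) (by norm_num)) (by norm_num)
  have b2 := T.col 0 1 1 (hm _ _ (by norm_num) (by norm_num)) (hm _ _ (by norm_num) (by norm_num)) (by norm_num)
  have b3 := T.col 0 1 2 (hm _ _ (by norm_num) (by norm_num)) (hm _ _ (by norm_num) (by norm_num)) (by norm_num)
  have r0 := hr 0 0 (by norm_num) (by norm_num)
  have r1 := hr 1 2 (by norm_num) (by norm_num)
  have n1 : T.entry (0, 1) ≠ T.entry (1, 0) := fun h => by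
    have := hinj 0 1 1 0 (by norm_num) (by norm_num) (by norm_num) (by norm_num) h; omega
  have n2 : T.entry (0, 2) ≠ T.entry (1, 0) := fun h => by
    have := hinj 0 2 1 0 (by norm_num) (by norm_num) (by norm_num) (by norm_num) h; omega
  have n3 : T.entry (0, 2) ≠ T.entry (1, 1) := fun h => by
    have := hinj 0 2 1 1 (by norm_num) (by norm_num) (by norm_num) (by norm_num) h; omega
  generalize T.entry (0, 0) = a at *
  generalize T.entry (0, 1) = b at *
  generalize T.entry (0, 2) = c at *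
  generalize T.entry (1, 0) = d at *
  generalize T.entry (1, 1) = e at *
  generalize T.entry (1, 2) = f at *
  omega

/-- descents in terms of the six entries -/
lemma mem_Des (T : SYT R ⊥) (i : ℕ) :
    i ∈ Des T ↔ (1 ≤ i ∧ i ≤ 5) ∧
      (T.entry (0, 0) = i ∨ T.entry (0, 1) = i ∨ T.entry (0, 2) = i) ∧
      (T.entry (1, 0) = i + 1 ∨ T.entry (1, 1) = i + 1 ∨ T.entry (1, 2) = i + 1) := by
  unfold Des
  rw [Finset.mem_filter, size_R, Finset.mem_Icc]
  constructor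
  · rintro ⟨h1, ⟨c1, c2⟩, hc, ⟨d1, d2⟩, hd, e1, e2, hlt⟩
    rw [mem_R] at hc hd
    simp only at hlt
    refine ⟨h1, ?_, ?_⟩
    · have h0 : c1 = 0 := by omega
      have : c2 = 0 ∨ c2 = 1 ∨ c2 = 2 := by omega
      subst h0
      rcases this with rfl | rfl | rfl
      · exact Or.inl e1
      · exact Or.inr (Or.inl e1)
      · exact Or.inr (Or.inr e1)
    · have h0 : d1 = 1 := by omega
      have : d2 = 0 ∨ d2 = 1 ∨ d2 = 2 := by omega
      subst h0
      rcases this with rfl | rfl | rfl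
      · exact Or.inl e2
      · exact Or.inr (Or.inl e2)
      · exact Or.inr (Or.inr e2)
  · rintro ⟨h1, h2, h3⟩
    refine ⟨h1, ?_⟩
    have key : ∃ j, j < 3 ∧ T.entry (0, j) = i := by
      rcases h2 with h | h | h
      · exact ⟨0, by norm_num, h⟩
      · exact ⟨1, by norm_num, h⟩
      · exact ⟨2, by norm_num, h⟩
    have key' : ∃ j, j < 3 ∧ T.entry (1, j) = i + 1 := by
      rcases h3 with h | h | h
      · exact ⟨0, by norm_num, h⟩
      · exact ⟨1, by norm_num, h⟩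
      · exact ⟨2, by norm_num, h⟩
    obtain ⟨j, hj, e1⟩ := key
    obtain ⟨j', hj', e2⟩ := key'
    exact ⟨(0, j), (mem_R _ _).2 ⟨by norm_num, hj⟩, (1, j'), (mem_R _ _).2 ⟨by norm_num, hj'⟩,
      e1, e2, by norm_num⟩

/-- The pair (descent set, tableau) takes five values; here is the information we use. -/
lemma des_cases (T : SYT R ⊥) :
    (Des T = {3} ∧ T.entry (0, 1) = 2 ∧ T.entry (0, 2) = 3 ∧ T.entry (1, 0) = 4 ∧ T.entry (1, 1) = 5) ∨
    (Des T = {2, 4} ∧ T.entry (0, 1) = 2 ∧ T.entry (0, 2) = 4 ∧ T.entry (1, 0) = 3 ∧ T.entry (1, 1) = 5) ∨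
    (Des T = {2, 5} ∧ T.entry (0, 1) = 2 ∧ T.entry (0, 2) = 5 ∧ T.entry (1, 0) = 3 ∧ T.entry (1, 1) = 4) ∨
    (Des T = {1, 4} ∧ T.entry (0, 1) = 3 ∧ T.entry (0, 2) = 4 ∧ T.entry (1, 0) = 2 ∧ T.entry (1, 1) = 5) ∨
    (Des T = {1, 3, 5} ∧ T.entry (0, 1) = 3 ∧ T.entry (0, 2) = 5 ∧ T.entry (1, 0) = 2 ∧ T.entry (1, 1) = 4) := by
  obtain ⟨h0, h6, h⟩ := five T
  rcases h with h | h | h | h | h
  · refine Or.inl ⟨?_, h⟩
    ext i
    rw [mem_Des, h0, h6, h.1, h.2.1, h.2.2.1, h.2.2.2]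
    simp only [Finset.mem_singleton]
    omega
  · refine Or.inr (Or.inl ⟨?_, h⟩)
    ext i
    rw [mem_Des, h0, h6, h.1, h.2.1, h.2.2.1, h.2.2.2]
    simp only [Finset.mem_singleton, Finset.mem_insert]
    omega
  · refine Or.inr (Or.inr (Or.inl ⟨?_, h⟩))
    ext i
    rw [mem_Des, h0, h6, h.1, h.2.1, h.2.2.1, h.2.2.2]
    simp only [Finset.mem_singleton, Finset.mem_insert]
    omega
  · refine Or.inr (Or.inr (Or.inr (Or.inl ⟨?_, h⟩)))
    ext i
    rw [mem_Des, h0, h6, h.1, h.2.1, h.2.2.1, h.2.2.2]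
    simp only [Finset.mem_singleton, Finset.mem_insert]
    omega
  · refine Or.inr (Or.inr (Or.inr (Or.inr ⟨?_, h⟩)))
    ext i
    rw [mem_Des, h0, h6, h.1, h.2.1, h.2.2.1, h.2.2.2]
    simp only [Finset.mem_singleton, Finset.mem_insert]
    omega

/-- A tableau from the four middle entries. -/
def ent (b c d e : ℕ) : ℕ × ℕ → ℕ := fun p =>
  if p = (0, 0) then 1 else if p = (0, 1) then b else if p = (0, 2) then c else
  if p = (1, 0) then d else if p = (1, 1) then e else if p = (1, 2) then 6 else 0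

lemma ent_props (b c d e : ℕ)
    (h : (b = 2 ∧ c = 3 ∧ d = 4 ∧ e = 5) ∨ (b = 2 ∧ c = 4 ∧ d = 3 ∧ e = 5) ∨
      (b = 2 ∧ c = 5 ∧ d = 3 ∧ e = 4) ∨ (b = 3 ∧ c = 4 ∧ d = 2 ∧ e = 5) ∨
      (b = 3 ∧ c = 5 ∧ d = 2 ∧ e = 4)) :
    (∀ x ∈ Finset.range 2 ×ˢ Finset.range 3, 1 ≤ ent b c d e x ∧ ent b c d e x ≤ 6) ∧
    (∀ x ∈ Finset.range 2 ×ˢ Finset.range 3, ∀ y ∈ Finset.range 2 ×ˢ Finset.range 3,
      ent b c d e x = ent b c d e y → x = y) ∧
    (∀ x ∈ Finset.Icc 1 6, ∃ y ∈ Finset.range 2 ×ˢ Finset.range 3, ent b c d e y = x) := by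
  rcases h with ⟨rfl, rfl, rfl, rfl⟩ | ⟨rfl, rfl, rfl, rfl⟩ | ⟨rfl, rfl, rfl, rfl⟩ |
    ⟨rfl, rfl, rfl, rfl⟩ | ⟨rfl, rfl, rfl, rfl⟩ <;> decide

def mk (b c d e : ℕ)
    (h : (b = 2 ∧ c = 3 ∧ d = 4 ∧ e = 5) ∨ (b = 2 ∧ c = 4 ∧ d = 3 ∧ e = 5) ∨
      (b = 2 ∧ c = 5 ∧ d = 3 ∧ e = 4) ∨ (b = 3 ∧ c = 4 ∧ d = 2 ∧ e = 5) ∨
      (b = 3 ∧ c = 5 ∧ d = 2 ∧ e = 4)) : SYT R ⊥ where
  entry := ent b c d e
  zeros := by
    rintro ⟨i, j⟩ hc
    rw [mem_R] at hc
    unfold ent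
    simp only [Prod.mk.injEq]
    repeat' split_ifs
    all_goals first | omega | rfl
  bij := by
    rw [cells_R, size_R]
    obtain ⟨q1, q2, q3⟩ := ent_props b c d e h
    refine ⟨?_, ?_, ?_⟩
    · intro x hx
      exact q1 x (Finset.mem_coe.1 hx)
    · intro x hx y hy hxy
      exact q2 x (Finset.mem_coe.1 hx) y (Finset.mem_coe.1 hy) hxy
    · intro x hx
      obtain ⟨y, hy, hyx⟩ := q3 x (Finset.mem_Icc.2 hx)
      exact ⟨y, Finset.mem_coe.2 hy, hyx⟩
  row := by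
    intro i j j' h1 h2 h3
    rw [mem_R] at h1 h2
    unfold ent
    simp only [Prod.mk.injEq]
    repeat' split_ifs
    all_goals omega
  col := by
    intro i i' j h1 h2 h3
    rw [mem_R] at h1 h2
    unfold ent
    simp only [Prod.mk.injEq]
    repeat' split_ifs
    all_goals omega

/-- A tableau is determined by its four middle entries. -/
lemma ext4 (T T' : SYT R ⊥) (h1 : T.entry (0, 1) = T'.entry (0, 1))
    (h2 : T.entry (0, 2) = T'.entry (0, 2)) (h3 : T.entry (1, 0) = T'.entry (1, 0))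
    (h4 : T.entry (1, 1) = T'.entry (1, 1)) : T = T' := by
  obtain ⟨a, b, -⟩ := five T
  obtain ⟨a', b', -⟩ := five T'
  ext ⟨i, j⟩
  by_cases hm : (i, j) ∈ cells R ⊥
  · have := (mem_R i j).1 hm
    have hi : i = 0 ∨ i = 1 := by omega
    have hj : j = 0 ∨ j = 1 ∨ j = 2 := by omega
    rcases hi with rfl | rfl <;> rcases hj with rfl | rfl | rfl
    · rw [a, a']
    · exact h1
    · exact h2
    · exact h3
    · exact h4
    · rw [b, b']
  · rw [T.zeros _ hm, T'.zeros _ hm]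

/-- The descent set determines the tableau. -/
lemma des_inj : Function.Injective (Des : SYT R ⊥ → Finset ℕ) := by
  intro T T' h
  rcases des_cases T with ⟨d, e⟩ | ⟨d, e⟩ | ⟨d, e⟩ | ⟨d, e⟩ | ⟨d, e⟩ <;>
  rcases des_cases T' with ⟨d', e'⟩ | ⟨d', e'⟩ | ⟨d', e'⟩ | ⟨d', e'⟩ | ⟨d', e'⟩ <;>
  first
  | (exfalso; rw [d, d'] at h; revert h; decide)
  | exact ext4 T T' (by rw [e.1, e'.1]) (by rw [e.2.1, e'.2.1]) (by rw [e.2.2.1, e'.2.2.1])
      (by rw [e.2.2.2, e'.2.2.2])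

/-- The list of descent sets. -/
def L : Finset (Finset ℕ) := {{3}, {2, 4}, {2, 5}, {1, 4}, {1, 3, 5}}

lemma des_mem (T : SYT R ⊥) : Des T ∈ L := by
  rcases des_cases T with ⟨d, e⟩ | ⟨d, e⟩ | ⟨d, e⟩ | ⟨d, e⟩ | ⟨d, e⟩ <;> rw [d] <;> decide

lemma des_surj (X : Finset ℕ) (hX : X ∈ L) : ∃ T : SYT R ⊥, Des T = X := by
  have hL : X = {3} ∨ X = {2, 4} ∨ X = {2, 5} ∨ X = {1, 4} ∨ X = {1, 3, 5} := by
    simpa [L] using hX
  rcases hL with rfl | rfl | rfl | rfl | rfl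
  · refine ⟨mk 2 3 4 5 (by decide), ?_⟩
    rcases des_cases (mk 2 3 4 5 (by decide)) with ⟨d, e⟩ | ⟨d, e⟩ | ⟨d, e⟩ | ⟨d, e⟩ | ⟨d, e⟩
    · exact d
    all_goals (exfalso; revert e; decide)
  · refine ⟨mk 2 4 3 5 (by decide), ?_⟩
    rcases des_cases (mk 2 4 3 5 (by decide)) with ⟨d, e⟩ | ⟨d, e⟩ | ⟨d, e⟩ | ⟨d, e⟩ | ⟨d, e⟩
    rotate_left
    · exact d
    all_goals (exfalso; revert e; decide)
  · refine ⟨mk 2 5 3 4 (by decide), ?_⟩
    rcases des_cases (mk 2 5 3 4 (by decide)) with ⟨d, e⟩ | ⟨d, e⟩ | ⟨d, e⟩ | ⟨d, e⟩ | ⟨d, e⟩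
    rotate_left 2
    · exact d
    all_goals (exfalso; revert e; decide)
  · refine ⟨mk 3 4 2 5 (by decide), ?_⟩
    rcases des_cases (mk 3 4 2 5 (by decide)) with ⟨d, e⟩ | ⟨d, e⟩ | ⟨d, e⟩ | ⟨d, e⟩ | ⟨d, e⟩
    rotate_left 3
    · exact d
    all_goals (exfalso; revert e; decide)
  · refine ⟨mk 3 5 2 4 (by decide), ?_⟩
    rcases des_cases (mk 3 5 2 4 (by decide)) with ⟨d, e⟩ | ⟨d, e⟩ | ⟨d, e⟩ | ⟨d, e⟩ | ⟨d, e⟩
    rotate_left 4
    · exact d
    all_goals (exfalso; revert e; decide)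

/-- The tableaux correspond to the descent sets. -/
noncomputable def eqv : SYT R ⊥ ≃ {X // X ∈ L} :=
  Equiv.ofBijective (fun T => ⟨Des T, des_mem T⟩)
    ⟨fun T T' h => des_inj (congrArg Subtype.val h),
      fun X => by
        obtain ⟨T, hT⟩ := des_surj X.1 X.2
        exact ⟨T, Subtype.ext hT⟩⟩

lemma eqv_val (T : SYT R ⊥) : (eqv T).1 = Des T := rfl

/-- The cyclic descent set as a function of the descent set. -/
def cd (X : Finset ℕ) : Finset ℕ :=
  if X = {3} ∨ X = {2, 4} then insert 6 X else X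

/-- The cyclic shift on descent sets. -/
def sh (X : Finset ℕ) : Finset ℕ := (rot 6 (cd X)).erase 6

def shInv (X : Finset ℕ) : Finset ℕ :=
  (((cd X).image (fun x => (x + 4) % 6 + 1))).erase 6

lemma sh_mem : ∀ X ∈ L, sh X ∈ L := by decide

lemma shInv_mem : ∀ X ∈ L, shInv X ∈ L := by decide

lemma sh_left : ∀ X ∈ L, shInv (sh X) = X := by decide

lemma sh_right : ∀ X ∈ L, sh (shInv X) = X := by decide

lemma cd_sh : ∀ X ∈ L, cd (sh X) = rot 6 (cd X) := by decide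

def shPerm : Equiv.Perm {X // X ∈ L} where
  toFun X := ⟨sh X.1, sh_mem X.1 X.2⟩
  invFun X := ⟨shInv X.1, shInv_mem X.1 X.2⟩
  left_inv X := Subtype.ext (sh_left X.1 X.2)
  right_inv X := Subtype.ext (sh_right X.1 X.2)

/-- The cyclic descent map of the rectangle. -/
noncomputable def cDes (T : SYT R ⊥) : Finset ℕ := cd (Des T)

lemma cd_basic : ∀ X ∈ L, cd X ⊆ Finset.Icc 1 6 ∧ cd X ∩ Finset.Icc 1 5 = X ∧ cd X ≠ ∅ ∧
    cd X ≠ Finset.Icc 1 6 := by decide

theorem cDes_is : IsCyclicDescentMap R ⊥ cDes := by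
  unfold IsCyclicDescentMap
  rw [size_R]
  refine ⟨fun T => (cd_basic _ (des_mem T)).1, (eqv.trans shPerm).trans eqv.symm, fun T => ?_⟩
  obtain ⟨-, h2, h3, h4⟩ := cd_basic _ (des_mem T)
  refine ⟨h2, ?_, h3, h4⟩
  have hd : Des (((eqv.trans shPerm).trans eqv.symm) T) = sh (Des T) := by
    rw [← eqv_val]
    simp only [Equiv.trans_apply, Equiv.apply_symm_apply]
    rfl
  show cd (Des _) = rot 6 (cd (Des T))
  rw [hd]
  exact cd_sh _ (des_mem T)

/-- All candidates for the cyclic descent set lead to a contradiction except one. -/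
theorem forced (f : SYT R ⊥ → Finset ℕ) (hf : IsCyclicDescentMap R ⊥ f) (T : SYT R ⊥) :
    f T = cDes T := by
  unfold IsCyclicDescentMap at hf
  rw [size_R] at hf
  obtain ⟨h1, φ, hφ⟩ := hf
  -- `f T` is `Des T` or `insert 6 (Des T)`
  have key : ∀ T, f T ∩ Finset.Icc 1 5 ∈ L := fun T => by
    rw [(hφ T).1]; exact des_mem T
  have key2 : ∀ T, (rot 6 (f T)) ∩ Finset.Icc 1 5 ∈ L := fun T => by
    rw [← (hφ T).2.1]; exact key _
  have key3 : ∀ T, (rot 6 (rot 6 (f T))) ∩ Finset.Icc 1 5 ∈ L := fun T => by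
    rw [← (hφ T).2.1]; exact key2 _
  have key4 : ∀ T, (rot 6 (rot 6 (rot 6 (f T)))) ∩ Finset.Icc 1 5 ∈ L := fun T => by
    rw [← (hφ T).2.1]; exact key3 _
  have hsub := h1 T
  have hD := (hφ T).1
  have hcases : f T = Des T ∨ f T = insert 6 (Des T) := by
    by_cases h6 : 6 ∈ f T
    · right
      ext x
      rw [Finset.mem_insert, ← hD, Finset.mem_inter, Finset.mem_Icc]
      constructor
      · intro hx
        have := Finset.mem_Icc.1 (hsub hx)
        by_cases hx6 : x = 6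
        · exact Or.inl hx6
        · exact Or.inr ⟨hx, this.1, by omega⟩
      · rintro (rfl | hx)
        · exact h6
        · exact hx.1
    · left
      ext x
      rw [← hD, Finset.mem_inter, Finset.mem_Icc]
      constructor
      · intro hx
        have := Finset.mem_Icc.1 (hsub hx)
        have hx6 : x ≠ 6 := fun h => h6 (h ▸ hx)
        exact ⟨hx, this.1, by omega⟩
      · exact fun hx => hx.1
  have k2 := key2 T
  have k3 := key3 T
  have k4 := key4 T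
  have main : ∀ X ∈ L,
      ((rot 6 X) ∩ Finset.Icc 1 5 ∈ L → (rot 6 (rot 6 X)) ∩ Finset.Icc 1 5 ∈ L →
        (rot 6 (rot 6 (rot 6 X))) ∩ Finset.Icc 1 5 ∈ L → X = cd X) ∧
      ((rot 6 (insert 6 X)) ∩ Finset.Icc 1 5 ∈ L → insert 6 X = cd X) := by decide
  rcases hcases with h | h
  · rw [h] at k2 k3 k4 ⊢
    exact (main _ (des_mem T)).1 k2 k3 k4
  · rw [h] at k2 ⊢
    exact (main _ (des_mem T)).2 k2

/-- The descent numbers of the rectangle. -/
theorem D_R : D R ⊥ = {1, 2, 3} := by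
  ext d
  simp only [D, Set.mem_insert_iff, Set.mem_singleton_iff]
  constructor
  · rintro ⟨T, rfl⟩
    have : ∀ X ∈ L, X.card = 1 ∨ X.card = 2 ∨ X.card = 3 := by decide
    exact this _ (des_mem T)
  · rintro (rfl | rfl | rfl)
    · obtain ⟨T, hT⟩ := des_surj {3} (by decide)
      exact ⟨T, by rw [hT]; rfl⟩
    · obtain ⟨T, hT⟩ := des_surj {2, 4} (by decide)
      exact ⟨T, by rw [hT]; rfl⟩
    · obtain ⟨T, hT⟩ := des_surj {1, 3, 5} (by decide)
      exact ⟨T, by rw [hT]; rfl⟩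

/-- **Disproof.** There is a skew shape (the `2 × 3` rectangle `(3,3)/∅`) that has exactly one
cyclic descent map, while its set of descent numbers is `{1, 2, 3}`, which is not a set of two
consecutive integers. -/
theorem result :
    ∃ lam mu : YoungDiagram, mu ≤ lam ∧
      (∃! f : SYT lam mu → Finset ℕ, IsCyclicDescentMap lam mu f) ∧
      D lam mu = {1, 2, 3} ∧ ¬ ∃ k : ℤ, ((↑) : ℕ → ℤ) '' D lam mu = {k - 1, k} := by
  refine ⟨R, ⊥, bot_le, ⟨cDes, cDes_is, fun f hf => funext (forced f hf)⟩, D_R, ?_⟩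
  rintro ⟨k, hk⟩
  rw [D_R] at hk
  have h1 : (1 : ℤ) ∈ ({k - 1, k} : Set ℤ) := by rw [← hk]; exact ⟨1, by simp, by norm_num⟩
  have h2 : (2 : ℤ) ∈ ({k - 1, k} : Set ℤ) := by rw [← hk]; exact ⟨2, by simp, by norm_num⟩
  have h3 : (3 : ℤ) ∈ ({k - 1, k} : Set ℤ) := by rw [← hk]; exact ⟨3, by simp, by norm_num⟩
  simp only [Set.mem_insert_iff, Set.mem_singleton_iff] at h1 h2 h3
  omega

end Pool.Agent.Results.MP_496e47_co.RectangleTwoThree
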